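import Pool.Agent.H409R2.MZ.PNT

/-! The Liouville function has mean value zero (from the same statement for the Möbius function). -/

set_option autoImplicit false

open Finset

namespace Pool.Agent.H706R2.PS

/-- the Liouville function -/
noncomputable def lamR (n : ℕ) : ℝ := (-1) ^ (ArithmeticFunction.cardFactors n)

lemma sq_uniq {a a' b c : ℕ} (ha : Squarefree a) (ha' : Squarefree a') (hb : b ≠ 0) (hc : c ≠ 0)
    (h : b ^ 2 * a = c ^ 2 * a') : b = c := by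
  have ha0 : a ≠ 0 := ha.ne_zero
  have ha0' : a' ≠ 0 := ha'.ne_zero
  refine Nat.eq_of_factorization_eq hb hc fun p => ?_
  have h1 : (b ^ 2 * a).factorization p = (c ^ 2 * a').factorization p := by rw [h]
  rw [Nat.factorization_mul (pow_ne_zero 2 hb) ha0, Nat.factorization_mul (pow_ne_zero 2 hc) ha0',
    Nat.factorization_pow, Nat.factorization_pow] at h1
  simp only [Finsupp.coe_add, Pi.add_apply, Finsupp.coe_smul, Pi.smul_apply, smul_eq_mul] at h1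
  have h2 := ha.natFactorization_le_one p
  have h3 := ha'.natFactorization_le_one p
  omega

lemma lam_sq_mul {a b : ℕ} (ha : Squarefree a) (hb : b ≠ 0) :
    lamR (b ^ 2 * a) = ((ArithmeticFunction.moebius a : ℤ) : ℝ) := by
  unfold lamR
  rw [ArithmeticFunction.cardFactors_mul (pow_ne_zero 2 hb) ha.ne_zero, ArithmeticFunction.cardFactors_pow,
    ArithmeticFunction.moebius_apply_of_squarefree ha, pow_add, pow_mul]
  push_cast
  norm_num

lemma lam_sum (x : ℕ) : ∑ k ∈ Icc 1 x, lamR k =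
    ∑ b ∈ Icc 1 x, ∑ a ∈ Icc 1 (x / b ^ 2), ((ArithmeticFunction.moebius a : ℤ) : ℝ) := by
  classical
  have e1 : ∑ b ∈ Icc 1 x, ∑ a ∈ Icc 1 (x / b ^ 2), ((ArithmeticFunction.moebius a : ℤ) : ℝ) =
      ∑ b ∈ Icc 1 x, ∑ a ∈ (Icc 1 (x / b ^ 2)).filter Squarefree, ((ArithmeticFunction.moebius a : ℤ) : ℝ) := by
    refine Finset.sum_congr rfl fun b _ => ?_
    rw [Finset.sum_filter]
    refine Finset.sum_congr rfl fun a _ => ?_
    split_ifs with h
    · rfl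
    · rw [ArithmeticFunction.moebius_eq_zero_of_not_squarefree h]; simp
  rw [e1, Finset.sum_sigma']
  symm
  refine Finset.sum_bij (fun p _ => p.1 ^ 2 * p.2) ?_ ?_ ?_ ?_
  · rintro ⟨b, a⟩ h
    simp only [mem_sigma, mem_Icc, mem_filter] at h ⊢
    obtain ⟨⟨hb1, hb2⟩, ⟨ha1, ha2⟩, hs⟩ := h
    refine ⟨Nat.succ_le_of_lt (by positivity), ?_⟩
    calc b ^ 2 * a ≤ b ^ 2 * (x / b ^ 2) := Nat.mul_le_mul_left _ ha2
      _ ≤ x := Nat.mul_div_le _ _
  · rintro ⟨b, a⟩ h ⟨c, a'⟩ h' heq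
    simp only [mem_sigma, mem_Icc, mem_filter] at h h' heq
    have hbc : b = c := sq_uniq h.2.2 h'.2.2 (by omega) (by omega) heq
    subst hbc
    have hb0 : 0 < b ^ 2 := by have := h.1.1; positivity
    have : a = a' := Nat.eq_of_mul_eq_mul_left hb0 heq
    subst this
    rfl
  · intro k hk
    rw [mem_Icc] at hk
    obtain ⟨a, b, hab, hs⟩ := Nat.sq_mul_squarefree k
    have hb0 : b ≠ 0 := by rintro rfl; simp at hab; omega
    have ha0 : a ≠ 0 := hs.ne_zero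
    have hb2 : 0 < b ^ 2 := by positivity
    refine ⟨⟨b, a⟩, ?_, hab⟩
    simp only [mem_sigma, mem_Icc, mem_filter]
    refine ⟨⟨Nat.one_le_iff_ne_zero.2 hb0, ?_⟩, ⟨Nat.one_le_iff_ne_zero.2 ha0, ?_⟩, hs⟩
    · calc b ≤ b ^ 2 := Nat.le_self_pow (by norm_num) b
        _ ≤ b ^ 2 * a := Nat.le_mul_of_pos_right _ (Nat.pos_of_ne_zero ha0)
        _ = k := hab
        _ ≤ x := hk.2
    · rw [Nat.le_div_iff_mul_le hb2, mul_comm, hab]
      exact hk.2
  · rintro ⟨b, a⟩ h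
    simp only [mem_sigma, mem_Icc, mem_filter] at h ⊢
    exact (lam_sq_mul h.2.2 (by omega)).symm

lemma inv_sq_sum (x : ℕ) : ∑ b ∈ Icc 1 x, 1 / (b : ℝ) ^ 2 ≤ 2 := by
  have key : ∀ n : ℕ, ∑ b ∈ Icc 1 (n + 1), 1 / (b : ℝ) ^ 2 ≤ 2 - 1 / ((n : ℝ) + 1) := by
    intro n
    induction n with
    | zero => norm_num
    | succ n ih =>
      rw [Finset.sum_Icc_succ_top (by omega)]
      have h1 : 1 / (((n + 1 + 1 : ℕ)) : ℝ) ^ 2 ≤ 1 / ((n : ℝ) + 1) - 1 / (((n + 1 : ℕ) : ℝ) + 1) := by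
        push_cast
        rw [div_sub_div _ _ (by positivity) (by positivity), div_le_div_iff₀ (by positivity) (by positivity)]
        have : (0 : ℝ) ≤ n := Nat.cast_nonneg n
        nlinarith
      linarith
  rcases Nat.eq_zero_or_pos x with h | h
  · subst h; simp
  · obtain ⟨n, rfl⟩ : ∃ n, x = n + 1 := ⟨x - 1, by omega⟩
    have := key n
    have h2 : (0 : ℝ) ≤ 1 / ((n : ℝ) + 1) := by positivity
    linarith

open Pool.Agent.H409R2.MZ.PNT in
/-- the Liouville function has mean value zero -/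
lemma lam_littleO (ε : ℝ) (hε : 0 < ε) : ∃ N0 : ℕ, 1 ≤ N0 ∧ ∀ x : ℕ, N0 ≤ x → |∑ k ∈ Icc 1 x, lamR k| ≤ ε * x := by
  obtain ⟨N1, hN1⟩ := mertens_littleO (ε / 4) (by positivity)
  obtain ⟨N2, hN2⟩ := exists_nat_gt ((2 * N1 / ε) ^ 2)
  refine ⟨max N2 1, le_max_right _ _, fun x hx => ?_⟩
  have hx2 : N2 ≤ x := (le_max_left _ _).trans hx
  have hx1 : 1 ≤ x := (le_max_right _ _).trans hx
  have hxp : (0 : ℝ) < x := by exact_mod_cast hx1
  rw [lam_sum]
  have hterm : ∀ b ∈ Icc 1 x, |∑ a ∈ Icc 1 (x / b ^ 2), ((ArithmeticFunction.moebius a : ℤ) : ℝ)| ≤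
      ε / 4 * x * (1 / (b : ℝ) ^ 2) + (if b ^ 2 ≤ x then (N1 : ℝ) else 0) := by
    intro b hb
    rw [mem_Icc] at hb
    have hbp : (0 : ℝ) < b := by exact_mod_cast hb.1
    have hfl : (((x / b ^ 2 : ℕ)) : ℝ) ≤ x * (1 / (b : ℝ) ^ 2) := by
      have := @Nat.cast_div_le ℝ _ _ _ x (b ^ 2)
      rw [mul_one_div]
      push_cast at this
      exact this
    show |MM (x / b ^ 2)| ≤ _
    have hnn : (0 : ℝ) ≤ if b ^ 2 ≤ x then (N1 : ℝ) else 0 := by split_ifs <;> positivity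
    rcases le_or_gt N1 (x / b ^ 2) with h | h
    · have h1 := hN1 _ h
      have h2 : ε / 4 * (((x / b ^ 2 : ℕ)) : ℝ) ≤ ε / 4 * (x * (1 / (b : ℝ) ^ 2)) :=
        mul_le_mul_of_nonneg_left hfl (by positivity)
      linarith
    · have h0 : 0 ≤ ε / 4 * x * (1 / (b : ℝ) ^ 2) := by positivity
      split_ifs with hbx
      · have h1 := abs_MM_le (x / b ^ 2)
        have h2 : (((x / b ^ 2 : ℕ)) : ℝ) ≤ N1 := by exact_mod_cast h.le
        linarith
      · have h3 : x / b ^ 2 = 0 := Nat.div_eq_of_lt (by omega)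
        have h4 := abs_MM_le (x / b ^ 2)
        rw [h3] at h4 ⊢
        simp only [Nat.cast_zero] at h4
        linarith
  refine (Finset.abs_sum_le_sum_abs _ _).trans ((Finset.sum_le_sum hterm).trans ?_)
  rw [Finset.sum_add_distrib, ← Finset.mul_sum, ← Finset.sum_filter, Finset.sum_const, nsmul_eq_mul]
  have h1 : ε / 4 * x * ∑ b ∈ Icc 1 x, 1 / (b : ℝ) ^ 2 ≤ ε / 4 * x * 2 :=
    mul_le_mul_of_nonneg_left (inv_sq_sum x) (by positivity)
  have h2 : (((Icc 1 x).filter (fun b => b ^ 2 ≤ x)).card : ℝ) ≤ Real.sqrt x := by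
    have h3 : (Icc 1 x).filter (fun b => b ^ 2 ≤ x) ⊆ Icc 1 (Nat.sqrt x) := by
      intro b hb
      simp only [mem_filter, mem_Icc] at hb ⊢
      exact ⟨hb.1.1, Nat.le_sqrt'.2 hb.2⟩
    have h4 := Finset.card_le_card h3
    rw [Nat.card_Icc, Nat.add_sub_cancel] at h4
    have h5 : ((Nat.sqrt x : ℕ) : ℝ) ≤ Real.sqrt x := Real.nat_sqrt_le_real_sqrt
    have h6 : (((Icc 1 x).filter (fun b => b ^ 2 ≤ x)).card : ℝ) ≤ ((Nat.sqrt x : ℕ) : ℝ) := by exact_mod_cast h4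
    linarith
  have h7 : Real.sqrt x * N1 ≤ ε / 2 * x := by
    have h8 : 2 * N1 / ε ≤ Real.sqrt x := by
      refine Real.le_sqrt_of_sq_le ?_
      have : (N2 : ℝ) ≤ x := by exact_mod_cast hx2
      linarith
    rw [div_le_iff₀ hε] at h8
    have h9 : Real.sqrt x * Real.sqrt x = x := Real.mul_self_sqrt hxp.le
    have h10 : 0 ≤ Real.sqrt x := Real.sqrt_nonneg _
    nlinarith
  have h11 : (((Icc 1 x).filter (fun b => b ^ 2 ≤ x)).card : ℝ) * N1 ≤ Real.sqrt x * N1 :=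
    mul_le_mul_of_nonneg_right h2 (Nat.cast_nonneg _)
  linarith

lemma abs_lamR (n : ℕ) : |lamR n| ≤ 1 := by
  unfold lamR
  rw [abs_pow, abs_neg, abs_one, one_pow]

lemma lam_shift_sum (h M : ℕ) : ∑ k ∈ Icc 1 (M + h), lamR k =
    ∑ k ∈ Icc 1 h, lamR k + ∑ m ∈ Icc 1 M, lamR (m + h) := by
  induction M with
  | zero => simp
  | succ n ih =>
    rw [show n + 1 + h = (n + h) + 1 by ring, Finset.sum_Icc_succ_top (by omega), ih,
      Finset.sum_Icc_succ_top (by omega : 1 ≤ n + 1), show n + 1 + h = (n + h) + 1 by ring]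
    ring

lemma lam_shift (h : ℕ) (δ : ℝ) (hδ : 0 < δ) : ∃ M0 : ℕ, ∀ M : ℕ, M0 ≤ M →
    |(1 / (M : ℝ)) * ∑ m ∈ Icc 1 M, lamR (m + h) - 0| ≤ δ := by
  obtain ⟨N0, hN0, hb⟩ := lam_littleO (δ / 2) (by positivity)
  obtain ⟨N1, hN1⟩ := exists_nat_gt ((h : ℝ) + 2 * h / δ)
  refine ⟨max (max N0 N1) 1, fun M hM => ?_⟩
  have h1 : N0 ≤ M := (le_max_left _ _).trans ((le_max_left _ _).trans hM)
  have h2 : N1 ≤ M := (le_max_right _ _).trans ((le_max_left _ _).trans hM)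
  have h3 : 1 ≤ M := (le_max_right _ _).trans hM
  have hMp : (0 : ℝ) < M := by exact_mod_cast h3
  have h4 := hb (M + h) (by omega)
  rw [lam_shift_sum] at h4
  have h5 : |∑ k ∈ Icc 1 h, lamR k| ≤ h := by
    refine (Finset.abs_sum_le_sum_abs _ _).trans ((Finset.sum_le_sum fun k _ => abs_lamR k).trans ?_)
    simp
  rw [sub_zero, one_div, abs_mul, abs_inv, abs_of_pos hMp, inv_mul_eq_div, div_le_iff₀ hMp]
  have h6 : |∑ m ∈ Icc 1 M, lamR (m + h)| ≤ δ / 2 * ((M : ℝ) + h) + h := by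
    push_cast at h4
    rw [abs_le] at h4 h5 ⊢
    constructor <;> linarith [h4.1, h4.2, h5.1, h5.2]
  have h7 : (h : ℝ) + 2 * h / δ < M := hN1.trans_le (by exact_mod_cast h2)
  have h8 : δ / 2 * ((h : ℝ) + 2 * h / δ) ≤ δ / 2 * M := mul_le_mul_of_nonneg_left h7.le (by positivity)
  have h9 : δ / 2 * ((h : ℝ) + 2 * h / δ) = δ / 2 * h + h := by field_simp
  linarith

end Pool.Agent.H706R2.PS
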