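import Pool.Agent.H706R2.PS.SDefs

/-! S3: Abel summation. -/

open Finset MeasureTheory Filter

namespace Pool.Agent.H706R2.PS

/-- upper bound for the weights -/
lemma s3_step_up {s : ℝ} (h0 : 0 < s) (h1 : s < 1) (m : ℕ) (hm : 1 ≤ m) :
    s * (m : ℝ) ^ (s - 1) ≤ (m : ℝ) ^ s - ((m : ℝ) - 1) ^ s := by
  have hmp : (0 : ℝ) < m := by exact_mod_cast hm
  have hm1 : (1 : ℝ) ≤ m := by exact_mod_cast hm
  have hb := rpow_one_add_le_one_add_mul_self (s := -(1 / (m : ℝ)))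
    (by rw [neg_le_neg_iff, div_le_one hmp]; exact hm1) h0.le h1.le
  have e1 : (m : ℝ) - 1 = m * (1 + -(1 / (m : ℝ))) := by field_simp; ring
  have hnn : (0 : ℝ) ≤ 1 + -(1 / (m : ℝ)) := by
    have : 1 / (m : ℝ) ≤ 1 := by rw [div_le_one hmp]; exact hm1
    linarith
  rw [e1, Real.mul_rpow hmp.le hnn, Real.rpow_sub hmp, Real.rpow_one]
  have h2 : (m : ℝ) ^ s * (1 + -(1 / (m : ℝ))) ^ s ≤ (m : ℝ) ^ s * (1 + s * -(1 / (m : ℝ))) :=
    mul_le_mul_of_nonneg_left hb (by positivity)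
  have e2 : (m : ℝ) ^ s * (1 + s * -(1 / (m : ℝ))) = (m : ℝ) ^ s - s * ((m : ℝ) ^ s / m) := by
    field_simp
    ring
  linarith

/-- lower bound for the weights -/
lemma s3_step_low {s : ℝ} (h0 : 0 < s) (h1 : s < 1) (m : ℕ) (hm : 1 ≤ m) :
    ((m : ℝ) + 1) ^ s - (m : ℝ) ^ s ≤ s * (m : ℝ) ^ (s - 1) := by
  have hmp : (0 : ℝ) < m := by exact_mod_cast hm
  have hb := rpow_one_add_le_one_add_mul_self (s := 1 / (m : ℝ))
    (by have : (0 : ℝ) < 1 / (m : ℝ) := by positivity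
        linarith) h0.le h1.le
  have e1 : (m : ℝ) + 1 = m * (1 + 1 / (m : ℝ)) := by field_simp
  rw [e1, Real.mul_rpow hmp.le (by positivity), Real.rpow_sub hmp, Real.rpow_one]
  have h2 : (m : ℝ) ^ s * (1 + 1 / (m : ℝ)) ^ s ≤ (m : ℝ) ^ s * (1 + s * (1 / (m : ℝ))) :=
    mul_le_mul_of_nonneg_left hb (by positivity)
  have e2 : (m : ℝ) ^ s * (1 + s * (1 / (m : ℝ))) = (m : ℝ) ^ s + s * ((m : ℝ) ^ s / m) := by
    field_simp
  linarith

lemma s3_sum_up {s : ℝ} (h0 : 0 < s) (h1 : s < 1) (y : ℕ) :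
    ∑ m ∈ Icc 1 y, s * (m : ℝ) ^ (s - 1) ≤ (y : ℝ) ^ s := by
  induction y with
  | zero => simp [Real.zero_rpow h0.ne']
  | succ n ih =>
    rw [Finset.sum_Icc_succ_top (by omega)]
    have h := s3_step_up h0 h1 (n + 1) (by omega)
    have e : (((n + 1 : ℕ) : ℝ)) - 1 = (n : ℝ) := by push_cast; ring
    rw [e] at h
    linarith

lemma s3_sum_low {s : ℝ} (h0 : 0 < s) (h1 : s < 1) (y : ℕ) :
    ((y : ℝ) + 1) ^ s - 1 ≤ ∑ m ∈ Icc 1 y, s * (m : ℝ) ^ (s - 1) := by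
  induction y with
  | zero => simp
  | succ n ih =>
    rw [Finset.sum_Icc_succ_top (by omega)]
    have h := s3_step_low h0 h1 (n + 1) (by omega)
    have e : (((n + 1 : ℕ) : ℝ)) = (n : ℝ) + 1 := by push_cast; ring
    rw [e] at h ⊢
    linarith

/-- Abel summation bound -/
lemma s3_abel (a W v : ℕ → ℝ) (δ C0 : ℝ) (hdec : ∀ m : ℕ, 1 ≤ m → a (m + 1) ≤ a m)
    (hpos : ∀ m : ℕ, 0 ≤ a m) (hW : ∀ M : ℕ, W M = ∑ m ∈ Icc 1 M, v m)
    (hb : ∀ M : ℕ, |W M| ≤ δ * M + C0) (hC0 : 0 ≤ C0) (y : ℕ) :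
    |∑ m ∈ Icc 1 y, a m * v m| ≤ δ * ∑ m ∈ Icc 1 y, a m + C0 * a 1 := by
  have key : ∀ n : ℕ, |∑ m ∈ Icc 1 (n + 1), a m * v m - a (n + 1) * W (n + 1)| ≤
      δ * (∑ m ∈ Icc 1 (n + 1), a m - a (n + 1) * ((n : ℝ) + 1)) + C0 * (a 1 - a (n + 1)) := by
    intro n
    induction n with
    | zero => simp [hW]
    | succ n ih =>
      have e1 : ∑ m ∈ Icc 1 (n + 1 + 1), a m * v m - a (n + 1 + 1) * W (n + 1 + 1) =
          (∑ m ∈ Icc 1 (n + 1), a m * v m - a (n + 1) * W (n + 1)) +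
            (a (n + 1) - a (n + 1 + 1)) * W (n + 1) := by
        rw [hW (n + 1 + 1), hW (n + 1), Finset.sum_Icc_succ_top (by omega : 1 ≤ n + 1 + 1),
          Finset.sum_Icc_succ_top (by omega : 1 ≤ n + 1 + 1)]
        ring
      rw [e1]
      have h1 : 0 ≤ a (n + 1) - a (n + 1 + 1) := by linarith [hdec (n + 1) (by omega)]
      have h2 : |(a (n + 1) - a (n + 1 + 1)) * W (n + 1)| ≤
          (a (n + 1) - a (n + 1 + 1)) * (δ * ((n : ℝ) + 1) + C0) := by
        rw [abs_mul, abs_of_nonneg h1]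
        refine mul_le_mul_of_nonneg_left ?_ h1
        have := hb (n + 1)
        push_cast at this
        exact this
      refine (abs_add_le _ _).trans ((add_le_add ih h2).trans (le_of_eq ?_))
      rw [Finset.sum_Icc_succ_top (by omega : 1 ≤ n + 1 + 1) (f := a)]
      push_cast
      ring
  rcases Nat.eq_zero_or_pos y with hy | hy
  · subst hy
    simp only [Finset.Icc_eq_empty (by omega : ¬ (1 ≤ 0)), Finset.sum_empty, abs_zero, mul_zero, zero_add]
    exact mul_nonneg hC0 (hpos 1)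
  · obtain ⟨n, rfl⟩ : ∃ n, y = n + 1 := ⟨y - 1, by omega⟩
    have h1 := key n
    have h2 : |a (n + 1) * W (n + 1)| ≤ a (n + 1) * (δ * ((n : ℝ) + 1) + C0) := by
      rw [abs_mul, abs_of_nonneg (hpos _)]
      refine mul_le_mul_of_nonneg_left ?_ (hpos _)
      have := hb (n + 1)
      push_cast at this
      exact this
    have e2 : ∑ m ∈ Icc 1 (n + 1), a m * v m =
        (∑ m ∈ Icc 1 (n + 1), a m * v m - a (n + 1) * W (n + 1)) + a (n + 1) * W (n + 1) := by ring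
    rw [e2]
    refine (abs_add_le _ _).trans ((add_le_add h1 h2).trans (le_of_eq ?_))
    ring

theorem s3 : S3 := by
  intro c β L δ w hc hβ hδ hK hM
  obtain ⟨K, hK⟩ := hK
  obtain ⟨M0, hM0⟩ := hM
  have hc0 : 0 < c := by linarith
  have hs0 : 0 < 1 / c := by positivity
  have hs1 : 1 / c < 1 := by rw [div_lt_one hc0]; exact hc
  have hK0 : 0 ≤ K := (abs_nonneg _).trans (hK 0)
  set B : ℝ := β ^ (-(1 / c)) with hBdef
  have hB : 0 < B := Real.rpow_pos_of_pos hβ _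
  set a : ℕ → ℝ := fun m => (1 / c) * B * (m : ℝ) ^ (1 / c - 1) with ha
  have hpos : ∀ m, 0 ≤ a m := fun m => by
    simp only [ha]; positivity
  have hdec : ∀ m : ℕ, 1 ≤ m → a (m + 1) ≤ a m := by
    intro m hm
    have hmp : (0 : ℝ) < m := by exact_mod_cast hm
    simp only [ha]
    refine mul_le_mul_of_nonneg_left ?_ (by positivity)
    exact Real.rpow_le_rpow_of_nonpos hmp (by push_cast; linarith) (by linarith)
  set C0 : ℝ := (K + |L|) * M0 with hC0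
  have hC0' : 0 ≤ C0 := by positivity
  have hb : ∀ M : ℕ, |∑ m ∈ Icc 1 M, (w m - L)| ≤ δ * M + C0 := by
    intro M
    rcases le_or_gt M0 M with h | h
    · rcases Nat.eq_zero_or_pos M with h0 | h0
      · subst h0
        simpa using hC0'
      · have hMp : (0 : ℝ) < M := by exact_mod_cast h0
        have h1 := hM0 M h
        have e1 : ∑ m ∈ Icc 1 M, (w m - L) = M * ((1 / (M : ℝ)) * ∑ m ∈ Icc 1 M, w m - L) := by
          rw [Finset.sum_sub_distrib, Finset.sum_const, Nat.card_Icc, nsmul_eq_mul]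
          simp only [Nat.add_sub_cancel]
          field_simp
        rw [e1, abs_mul, abs_of_pos hMp]
        nlinarith
    · have h1 : |∑ m ∈ Icc 1 M, (w m - L)| ≤ ∑ m ∈ Icc 1 M, (K + |L|) := by
        refine (Finset.abs_sum_le_sum_abs _ _).trans (Finset.sum_le_sum fun m _ => ?_)
        exact (abs_sub _ _).trans (add_le_add (hK m) le_rfl)
      rw [Finset.sum_const, Nat.card_Icc, nsmul_eq_mul] at h1
      simp only [Nat.add_sub_cancel] at h1
      have h2 : (M : ℝ) * (K + |L|) ≤ C0 := by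
        rw [hC0, mul_comm]
        refine mul_le_mul_of_nonneg_left ?_ (by positivity)
        exact_mod_cast h.le
      have h3 : 0 ≤ δ * M := by positivity
      linarith
  have hab := s3_abel a (fun M => ∑ m ∈ Icc 1 M, (w m - L)) (fun m => w m - L) δ C0 hdec hpos
    (fun M => rfl) hb hC0'
  obtain ⟨N0, hN0⟩ := exists_nat_gt ((C0 * a 1 + |L| * B) / δ)
  refine ⟨max N0 1, fun N hN => ?_⟩
  have hN1 : 1 ≤ N := (le_max_right _ _).trans hN
  have hN2 : N0 ≤ N := (le_max_left _ _).trans hN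
  have hNp : (0 : ℝ) < N := by exact_mod_cast hN1
  set y : ℕ := ⌊β * (N : ℝ) ^ c⌋₊ with hy
  have hz : 0 ≤ β * (N : ℝ) ^ c := by positivity
  have hBN : B * (β * (N : ℝ) ^ c) ^ (1 / c) = N := by
    rw [Real.mul_rpow hβ.le (by positivity), ← mul_assoc, hBdef, ← Real.rpow_add hβ, neg_add_cancel,
      Real.rpow_zero, one_mul, ← Real.rpow_mul hNp.le, mul_one_div_cancel hc0.ne', Real.rpow_one]
  have hasum : ∑ m ∈ Icc 1 y, a m = B * ∑ m ∈ Icc 1 y, (1 / c) * (m : ℝ) ^ (1 / c - 1) := by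
    rw [Finset.mul_sum]
    refine Finset.sum_congr rfl fun m _ => ?_
    simp only [ha]; ring
  have hup : ∑ m ∈ Icc 1 y, a m ≤ N := by
    rw [hasum, ← hBN]
    refine mul_le_mul_of_nonneg_left ?_ hB.le
    refine (s3_sum_up hs0 hs1 y).trans ?_
    exact Real.rpow_le_rpow (Nat.cast_nonneg _) (Nat.floor_le hz) hs0.le
  have hlow : (N : ℝ) - B ≤ ∑ m ∈ Icc 1 y, a m := by
    rw [hasum]
    have h1 := s3_sum_low hs0 hs1 y
    have h2 : (β * (N : ℝ) ^ c) ^ (1 / c) ≤ ((y : ℝ) + 1) ^ (1 / c) :=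
      Real.rpow_le_rpow hz (Nat.lt_floor_add_one _).le hs0.le
    have h3 : B * ((β * (N : ℝ) ^ c) ^ (1 / c) - 1) ≤ B * ∑ m ∈ Icc 1 y, (1 / c) * (m : ℝ) ^ (1 / c - 1) :=
      mul_le_mul_of_nonneg_left (by linarith) hB.le
    have h4 : B * ((β * (N : ℝ) ^ c) ^ (1 / c) - 1) = N - B := by rw [mul_sub, hBN, mul_one]
    linarith
  have hmain : |∑ m ∈ Icc 1 y, a m * w m - N * L| ≤ δ * N + (C0 * a 1 + |L| * B) := by
    have e1 : ∑ m ∈ Icc 1 y, a m * w m - N * L =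
        ∑ m ∈ Icc 1 y, a m * (w m - L) + L * (∑ m ∈ Icc 1 y, a m - N) := by
      rw [mul_sub, Finset.mul_sum, ← add_sub_assoc, ← Finset.sum_add_distrib]
      congr 1
      · refine Finset.sum_congr rfl fun m _ => ?_
        ring
      · ring
    rw [e1]
    refine (abs_add_le _ _).trans ?_
    have h1 := hab y
    have h2 : |L * (∑ m ∈ Icc 1 y, a m - N)| ≤ |L| * B := by
      rw [abs_mul]
      refine mul_le_mul_of_nonneg_left ?_ (abs_nonneg _)
      rw [abs_le]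
      constructor <;> linarith
    have h3 : δ * ∑ m ∈ Icc 1 y, a m ≤ δ * N := mul_le_mul_of_nonneg_left hup hδ.le
    linarith
  have hfin : C0 * a 1 + |L| * B ≤ δ * N := by
    have h1 : (C0 * a 1 + |L| * B) / δ < N := hN0.trans_le (by exact_mod_cast hN2)
    rw [div_lt_iff₀ hδ] at h1
    linarith
  have e2 : (1 / (N : ℝ)) * ∑ m ∈ Icc 1 y, (1 / c) * β ^ (-(1 / c)) * (m : ℝ) ^ (1 / c - 1) * w m - L =
      (∑ m ∈ Icc 1 y, a m * w m - N * L) / N := by
    have e3 : ∑ m ∈ Icc 1 y, (1 / c) * β ^ (-(1 / c)) * (m : ℝ) ^ (1 / c - 1) * w m =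
        ∑ m ∈ Icc 1 y, a m * w m := rfl
    rw [e3, eq_div_iff hNp.ne', sub_mul, mul_comm L, one_div, mul_comm, ← mul_assoc, mul_inv_cancel₀ hNp.ne', one_mul]
  rw [e2, abs_div, abs_of_pos hNp, div_le_iff₀ hNp]
  linarith

end Pool.Agent.H706R2.PS
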