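import Pool.Agent.H706R2.PS.SDefs

/-! task S5 (helper28) -/

open Finset MeasureTheory Filter

namespace Pool.Agent.H706R2.PS

theorem s5_lip (q : ℕ) : LipschitzWith 1 (fun x : ℝ => x / ((q : ℝ) + 1)) := by
  apply LipschitzWith.of_dist_le_mul
  intro x y
  rw [Real.dist_eq, Real.dist_eq, ← sub_div, abs_div, NNReal.coe_one, one_mul]
  apply div_le_self (abs_nonneg _)
  rw [abs_of_pos (by positivity)]
  have : (0 : ℝ) ≤ q := Nat.cast_nonneg q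
  linarith

theorem s5 (h2 : S2) (h3 : S3) (h4 : S4) : S5 := by
  intro c hc
  obtain ⟨d, hd, H⟩ := h2 c hc
  refine ⟨d, hd, ?_⟩
  intro F L hF hK hU hL
  obtain ⟨K, hK⟩ := hK
  have H' : ∀ q : ℕ, ∃ E : Set ℝ, dimH E ≤ ENNReal.ofReal d ∧ ∀ β : ℝ, 0 < β → β ∉ E →
      Tendsto (fun N : ℕ => (1 / (N : ℝ)) * (∑ n ∈ Icc 1 N, F ((⌊β * (n : ℝ) ^ c⌋₊ : ℝ) / (q : ℝ)) -
      ∑ m ∈ Icc 1 ⌊β * (N : ℝ) ^ c⌋₊, (1 / c) * β ^ (-(1 / c)) * (m : ℝ) ^ (1 / c - 1) *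
        F ((m : ℝ) / (q : ℝ)))) atTop (nhds 0) := by
    intro q
    obtain ⟨E, hE, hE'⟩ := H (fun m => F ((m : ℝ) / (q : ℝ))) ⟨K, fun m => hK _⟩
    exact ⟨E, hE, hE'⟩
  choose Eq hEq hEq' using H'
  refine ⟨⋃ q : ℕ, (fun x : ℝ => x / ((q : ℝ) + 1)) '' (Eq (q + 1)), ?_, ?_⟩
  · rw [dimH_iUnion]
    apply iSup_le
    intro q
    exact ((s5_lip q).dimH_image_le _).trans (hEq (q + 1))
  · intro β hβ hβE
    rw [Metric.tendsto_atTop]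
    intro ε hε
    obtain ⟨q, hq1, hq⟩ := hU (ε / 7) (by positivity)
    have hq0 : (0 : ℝ) < q := by exact_mod_cast hq1
    have hγ : 0 < (q : ℝ) * β := by positivity
    have hγE : (q : ℝ) * β ∉ Eq q := by
      intro hmem
      apply hβE
      rw [Set.mem_iUnion]
      refine ⟨q - 1, (q : ℝ) * β, ?_, ?_⟩
      · rw [Nat.sub_add_cancel hq1]; exact hmem
      · show (q : ℝ) * β / (((q - 1 : ℕ) : ℝ) + 1) = β
        have : (((q - 1 : ℕ) : ℝ) + 1) = q := by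
          rw [Nat.cast_sub hq1]; simp
        rw [this, mul_div_cancel_left₀ _ hq0.ne']
    have hT := hEq' q _ hγ hγE
    rw [Metric.tendsto_atTop] at hT
    obtain ⟨N1, hN1⟩ := hT (ε / 7) (by positivity)
    obtain ⟨M0, hM0⟩ := h4 F L q (ε / 7) hq1 (by positivity) hF hq hL
    obtain ⟨N2, hN2⟩ := h3 c ((q : ℝ) * β) L (2 * (ε / 7)) (fun m => F ((m : ℝ) / (q : ℝ))) hc hγ
      (by positivity) ⟨K, fun m => hK _⟩ ⟨M0, hM0⟩
    refine ⟨max N1 N2, fun N hN => ?_⟩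
    have a1 := hN1 N ((le_max_left _ _).trans hN)
    have a2 := hN2 N ((le_max_right _ _).trans hN)
    rw [Real.dist_eq, sub_zero] at a1
    rw [Real.dist_eq]
    have a3 : |(1 / (N : ℝ)) * ∑ n ∈ Icc 1 N, (F (β * (n : ℝ) ^ c) -
        F ((⌊(q : ℝ) * β * (n : ℝ) ^ c⌋₊ : ℝ) / (q : ℝ)))| ≤ ε / 7 := by
      rw [abs_mul]
      have b1 : |∑ n ∈ Icc 1 N, (F (β * (n : ℝ) ^ c) -
          F ((⌊(q : ℝ) * β * (n : ℝ) ^ c⌋₊ : ℝ) / (q : ℝ)))| ≤ (N : ℝ) * (ε / 7) := by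
        calc |∑ n ∈ Icc 1 N, (F (β * (n : ℝ) ^ c) -
              F ((⌊(q : ℝ) * β * (n : ℝ) ^ c⌋₊ : ℝ) / (q : ℝ)))|
            ≤ ∑ n ∈ Icc 1 N, |F (β * (n : ℝ) ^ c) -
              F ((⌊(q : ℝ) * β * (n : ℝ) ^ c⌋₊ : ℝ) / (q : ℝ))| := Finset.abs_sum_le_sum_abs _ _
          _ ≤ ∑ n ∈ Icc 1 N, ε / 7 := by
              apply Finset.sum_le_sum
              intro n _
              have c0 : 0 ≤ β * (n : ℝ) ^ c := by positivity
              have c1 : 0 ≤ (q : ℝ) * β * (n : ℝ) ^ c := by positivity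
              apply hq _ _ c0 (by positivity)
              have c2 := Nat.floor_le c1
              have c3 := Nat.lt_floor_add_one ((q : ℝ) * β * (n : ℝ) ^ c)
              have c4 : β * (n : ℝ) ^ c = ((q : ℝ) * β * (n : ℝ) ^ c) / q := by
                field_simp
              rw [c4, ← sub_div, abs_div, abs_of_pos hq0]
              apply div_le_div_of_nonneg_right _ hq0.le
              rw [abs_le]
              constructor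
              · linarith
              · linarith
          _ = (N : ℝ) * (ε / 7) := by
              rw [Finset.sum_const, Nat.card_Icc, nsmul_eq_mul, Nat.add_sub_cancel]
      rcases Nat.eq_zero_or_pos N with h0 | h0
      · subst h0
        simp
        positivity
      · have hNpos : (0 : ℝ) < N := by exact_mod_cast h0
        rw [abs_of_pos (by positivity : (0 : ℝ) < 1 / N)]
        calc 1 / (N : ℝ) * _ ≤ 1 / (N : ℝ) * ((N : ℝ) * (ε / 7)) :=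
              mul_le_mul_of_nonneg_left b1 (by positivity)
          _ = ε / 7 := by field_simp
    have a4 : (1 / (N : ℝ)) * ∑ n ∈ Icc 1 N, F (β * (n : ℝ) ^ c) - L =
        (1 / (N : ℝ)) * ∑ n ∈ Icc 1 N, (F (β * (n : ℝ) ^ c) -
          F ((⌊(q : ℝ) * β * (n : ℝ) ^ c⌋₊ : ℝ) / (q : ℝ))) +
        (1 / (N : ℝ)) * (∑ n ∈ Icc 1 N, F ((⌊(q : ℝ) * β * (n : ℝ) ^ c⌋₊ : ℝ) / (q : ℝ)) -
          ∑ m ∈ Icc 1 ⌊(q : ℝ) * β * (N : ℝ) ^ c⌋₊, (1 / c) * ((q : ℝ) * β) ^ (-(1 / c)) *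
            (m : ℝ) ^ (1 / c - 1) * F ((m : ℝ) / (q : ℝ))) +
        ((1 / (N : ℝ)) * ∑ m ∈ Icc 1 ⌊(q : ℝ) * β * (N : ℝ) ^ c⌋₊, (1 / c) *
          ((q : ℝ) * β) ^ (-(1 / c)) * (m : ℝ) ^ (1 / c - 1) * F ((m : ℝ) / (q : ℝ)) - L) := by
      rw [Finset.sum_sub_distrib]
      ring
    rw [a4]
    have a5 := abs_add_three ((1 / (N : ℝ)) * ∑ n ∈ Icc 1 N, (F (β * (n : ℝ) ^ c) -
          F ((⌊(q : ℝ) * β * (n : ℝ) ^ c⌋₊ : ℝ) / (q : ℝ))))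
        ((1 / (N : ℝ)) * (∑ n ∈ Icc 1 N, F ((⌊(q : ℝ) * β * (n : ℝ) ^ c⌋₊ : ℝ) / (q : ℝ)) -
          ∑ m ∈ Icc 1 ⌊(q : ℝ) * β * (N : ℝ) ^ c⌋₊, (1 / c) * ((q : ℝ) * β) ^ (-(1 / c)) *
            (m : ℝ) ^ (1 / c - 1) * F ((m : ℝ) / (q : ℝ))))
        ((1 / (N : ℝ)) * ∑ m ∈ Icc 1 ⌊(q : ℝ) * β * (N : ℝ) ^ c⌋₊, (1 / c) *
          ((q : ℝ) * β) ^ (-(1 / c)) * (m : ℝ) ^ (1 / c - 1) * F ((m : ℝ) / (q : ℝ)) - L)
    refine lt_of_le_of_lt a5 ?_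
    have a6 : ε / 7 + ε / 7 + 2 * (2 * (ε / 7)) < ε := by linarith
    refine lt_of_le_of_lt (add_le_add (add_le_add a3 a1.le) a2) a6

end Pool.Agent.H706R2.PS
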